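import Pool.Agent.H370Z.CC.Bridge
import Pool.Agent.H370Z.CC.G3
import Pool.Agent.H370Z.CC.G4
import Pool.Agent.H370Z.CC.G5
import Pool.Agent.H370Z.CC.G6
import Pool.Agent.H370Z.CC.G7
import Pool.Agent.H370Z.CC.G8

/-!
# MP_3d42b9_mp, full answer to Q2

For every `N` with `1 ≤ N ≤ 8`, every non-coalescent limiting central configuration of the planar
`1+N` body problem is symmetric: an isometry of the plane other than the identity fixes the unit
mass and maps the set of limit positions of the infinitesimal bodies onto itself.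
-/

open Pool.Agent.H443CC Pool.Agent.H370Z.CC

theorem Pool.Agent.Results.MP_3d42b9_mp.ASymmetricUpToEight.result :
    ∀ N : ℕ, 1 ≤ N → N ≤ 8 →
      ∀ Q : Fin (N + 1) → ℂ, IsLimitingCC N Q → NonCoalescent N Q →
        ∃ f : ℂ ≃ᵢ ℂ, f ≠ IsometryEquiv.refl ℂ ∧ f (Q 0) = Q 0 ∧
          f '' Set.range (fun i : Fin N => Q i.succ) = Set.range (fun i : Fin N => Q i.succ) := by
  intro N h1 h8 Q hQ hnc
  interval_cases N
  · exact one_sym _ _
  · exact cc_sym le_rfl (fun φ _ _ _ => two_main φ) Q hQ hnc
  · exact cc_sym (by norm_num) (circle_sym (by norm_num) (by norm_num) good3) Q hQ hnc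
  · exact cc_sym (by norm_num) (circle_sym (by norm_num) (by norm_num) good4) Q hQ hnc
  · exact cc_sym (by norm_num) (circle_sym (by norm_num) (by norm_num) good5) Q hQ hnc
  · exact cc_sym (by norm_num) (circle_sym (by norm_num) (by norm_num) good6) Q hQ hnc
  · exact cc_sym (by norm_num) (circle_sym (by norm_num) (by norm_num) good7) Q hQ hnc
  · exact cc_sym (by norm_num) (circle_sym (by norm_num) (by norm_num) good8) Q hQ hnc
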